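import Pool.Agent.Lib.MP_0e3b4a_gt.Iface2
import Pool.Agent.Lib.MP_0e3b4a_gt.H16.Flow

/-! # NOBA: minimisers do not backtrack -/

set_option autoImplicit false

namespace Pool.Agent.CutLoci.H30

open MeasureTheory Set Filter Topology

section

variable {r : ℕ} {A : Type} [NormedRing A] [NormedAlgebra ℝ A] [CompleteSpace A]

/-- Replacing the control by `0` on `(a, b)` does not change the endpoint if
`Γ(a) = Γ(b)`. -/
theorem flow_cut (uniq : UniqStatement) (R : EE r →L[ℝ] A) {N : ℕ} (hN : Nil R N)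
    (u v : ℝ → EE r) (hu : IntegrableOn u (Ioc 0 1)) (hv : IntegrableOn v (Ioc 0 1)) {a b : ℝ}
    (ha : 0 ≤ a) (hab : a ≤ b) (hb : b ≤ 1)
    (hvu : ∀ᵐ t ∂(volume.restrict (Ioc (0 : ℝ) 1)), v t = (Ioc a b)ᶜ.indicator u t)
    (h : flow R N u b = flow R N u a) : flow R N v 1 = flow R N u 1 := by
  obtain ⟨hcu, hsu⟩ := H16.sol_flow hN hu
  obtain ⟨hcv, hsv⟩ := H16.sol_flow hN hv
  have hRu : IntegrableOn (fun s => flow R N u s * R (u s)) (Ioc 0 1) :=
    H16.integrable_mul hcu (H16.integrable_R R hu)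
  have hRv : IntegrableOn (fun s => flow R N u s * R (v s)) (Ioc 0 1) :=
    H16.integrable_mul hcu (H16.integrable_R R hv)
  have hii : ∀ {f : ℝ → A}, IntegrableOn f (Ioc 0 1) → ∀ {s t : ℝ}, 0 ≤ s → s ≤ t → t ≤ 1 →
      IntervalIntegrable f volume s t := by
    intro f hf s t hs hst ht
    rw [intervalIntegrable_iff_integrableOn_Ioc_of_le hst]
    exact hf.mono_set (Ioc_subset_Ioc hs ht)
  -- the candidate for the flow of `v`
  set Z : ℝ → A := fun t => 1 + ∫ s in (0 : ℝ)..t, flow R N u s * R (v s) with hZ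
  have hZc : ContinuousOn Z (Icc 0 1) := continuousOn_const.add (H16.continuousOn_prim hRv)
  -- values of the integral outside and inside of `(a, b)`
  have hout : ∀ s t : ℝ, 0 ≤ s → s ≤ t → t ≤ 1 → (t ≤ a ∨ b ≤ s) →
      ∫ p in s..t, flow R N u p * R (v p) = ∫ p in s..t, flow R N u p * R (u p) := by
    intro s t hs hst ht hc
    rw [intervalIntegral.integral_of_le hst, intervalIntegral.integral_of_le hst]
    apply integral_congr_ae
    filter_upwards [ae_restrict_mem measurableSet_Ioc,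
      ae_restrict_of_ae_restrict_of_subset (Ioc_subset_Ioc hs ht) hvu] with p hp hpv
    rw [hpv, indicator_of_mem]
    intro hp2
    rcases hc with hc | hc
    · exact absurd (hp.2.trans hc) (not_le.2 hp2.1)
    · exact absurd (hp2.2.trans hc) (not_le.2 hp.1)
  have hin : ∫ p in a..b, flow R N u p * R (v p) = 0 := by
    rw [intervalIntegral.integral_of_le hab]
    refine integral_eq_zero_of_ae ?_
    filter_upwards [ae_restrict_mem measurableSet_Ioc,
      ae_restrict_of_ae_restrict_of_subset (Ioc_subset_Ioc ha hb) hvu] with p hp hpv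
    rw [hpv, indicator_of_notMem (by simpa using hp), map_zero, mul_zero]
    rfl
  have hZa : ∀ t, 0 ≤ t → t ≤ a → Z t = flow R N u t := by
    intro t ht hta
    rw [hZ, hsu t ⟨ht, hta.trans (hab.trans hb)⟩]
    change 1 + ∫ s in (0 : ℝ)..t, flow R N u s * R (v s) = _
    rw [hout 0 t le_rfl ht (hta.trans (hab.trans hb)) (Or.inl hta)]
  have hZb : ∀ t, b ≤ t → t ≤ 1 → Z t = flow R N u t := by
    intro t hbt ht
    have h1 : ∫ s in (0 : ℝ)..t, flow R N u s * R (v s) =
        (∫ s in (0 : ℝ)..a, flow R N u s * R (u s)) +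
          ∫ s in b..t, flow R N u s * R (u s) := by
      rw [← intervalIntegral.integral_add_adjacent_intervals
        (hii hRv le_rfl ha (hab.trans hb)) (hii hRv ha (hab.trans hbt) ht),
        ← intervalIntegral.integral_add_adjacent_intervals
        (hii hRv ha hab hb) (hii hRv (ha.trans hab) hbt ht), hin, zero_add,
        hout 0 a le_rfl ha (hab.trans hb) (Or.inl le_rfl),
        hout b t (ha.trans hab) hbt ht (Or.inr le_rfl)]
    have h2 : ∫ s in (0 : ℝ)..t, flow R N u s * R (u s) =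
        (∫ s in (0 : ℝ)..b, flow R N u s * R (u s)) +
          ∫ s in b..t, flow R N u s * R (u s) := by
      rw [intervalIntegral.integral_add_adjacent_intervals
        (hii hRu le_rfl (ha.trans hab) hb) (hii hRu (ha.trans hab) hbt ht)]
    have h3 := hsu a ⟨ha, hab.trans hb⟩
    have h4 := hsu b ⟨ha.trans hab, hb⟩
    have h5 : ∫ s in (0 : ℝ)..b, flow R N u s * R (u s) =
        ∫ s in (0 : ℝ)..a, flow R N u s * R (u s) := by
      have h6 : (1 : A) + ∫ s in (0 : ℝ)..b, flow R N u s * R (u s) =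
          1 + ∫ s in (0 : ℝ)..a, flow R N u s * R (u s) := by
        rw [← h3, ← h4, h]
      exact add_left_cancel h6
    rw [hsu t ⟨(ha.trans hab).trans hbt, ht⟩, h2, h5, ← h1]
  -- `Z` solves the equation of `v`
  have hZR : ∀ᵐ s ∂(volume.restrict (Ioc (0 : ℝ) 1)),
      flow R N u s * R (v s) = Z s * R (v s) := by
    filter_upwards [ae_restrict_mem measurableSet_Ioc, hvu] with s hs hsv
    by_cases hsab : s ∈ Ioc a b
    · rw [hsv, indicator_of_notMem (by simpa using hsab), map_zero, mul_zero, mul_zero]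
    · rcases le_or_gt s a with h1 | h1
      · rw [hZa s hs.1.le h1]
      · have h2 : b ≤ s := by
          by_contra h3
          exact hsab ⟨h1, (not_le.1 h3).le⟩
        rw [hZb s h2 hs.2]
  have hX : ∀ t ∈ Icc (0 : ℝ) 1, Z t - flow R N v t = 0 := by
    refine uniq A (fun s => R (v s)) (fun t => Z t - flow R N v t) (H16.integrable_R R hv)
      (hZc.sub hcv) (Or.inl ?_)
    intro t ht
    have h1 : Z t = 1 + ∫ s in (0 : ℝ)..t, Z s * R (v s) := by
      change 1 + ∫ s in (0 : ℝ)..t, flow R N u s * R (v s) = _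
      congr 1
      rw [intervalIntegral.integral_of_le ht.1, intervalIntegral.integral_of_le ht.1]
      apply integral_congr_ae
      exact ae_restrict_of_ae_restrict_of_subset (Ioc_subset_Ioc_right ht.2) hZR
    have h2 := hsv t ht
    have h3 : IntervalIntegrable (fun s => Z s * R (v s)) volume 0 t :=
      hii (H16.integrable_mul hZc (H16.integrable_R R hv)) le_rfl ht.1 ht.2
    have h4 : IntervalIntegrable (fun s => flow R N v s * R (v s)) volume 0 t :=
      hii (H16.integrable_mul hcv (H16.integrable_R R hv)) le_rfl ht.1 ht.2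
    calc Z t - flow R N v t = (1 + ∫ s in (0 : ℝ)..t, Z s * R (v s)) -
          (1 + ∫ s in (0 : ℝ)..t, flow R N v s * R (v s)) := by rw [← h1, ← h2]
      _ = ∫ s in (0 : ℝ)..t, (Z s - flow R N v s) * R (v s) := by
        rw [add_sub_add_left_eq_sub, ← intervalIntegral.integral_sub h3 h4]
        simp only [sub_mul]
  have h1 := hX 1 ⟨zero_le_one, le_rfl⟩
  rw [hZb 1 hb le_rfl, sub_eq_zero] at h1
  exact h1.symm

end

section

variable {g : Type} [NormedAddCommGroup g] [NormedSpace ℝ g] [FiniteDimensional ℝ g] {r : ℕ}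

/-- NOBA. -/
theorem noba (uniq : UniqStatement) (line : LineStatement) (nilp : NilpStatement g r) :
    NobaStatement g r := by
  intro C u hu a b p ha hab hb hp h0
  have hui : IntegrableOn (u : ℝ → EE r) (Ioc 0 1) := (Lp.memLp u).integrable (by norm_num)
  have hm : MemLp ((Ioc a b)ᶜ.indicator (u : ℝ → EE r)) 2 (volume.restrict (Ioc (0 : ℝ) 1)) :=
    (Lp.memLp u).indicator measurableSet_Ioc.compl
  set v : Ctl r := hm.toLp _ with hv
  have hvu : (v : ℝ → EE r) =ᵐ[volume.restrict (Ioc (0 : ℝ) 1)] (Ioc a b)ᶜ.indicator u :=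
    hm.coeFn_toLp
  have hvi : IntegrableOn (v : ℝ → EE r) (Ioc 0 1) := (Lp.memLp v).integrable (by norm_num)
  have h1 : C.Gam u b = C.Gam u a := by
    have h2 := line r (Carnot.Aff g) C.R (C.s + 1) (nilp C).1 u hui a b p ha hab hb hp
    rw [h0, map_zero, NormedSpace.exp_zero, mul_one] at h2
    exact h2
  have h2 : C.Gam v 1 = C.Gam u 1 :=
    flow_cut uniq C.R (nilp C).1 u v hui hvi ha hab hb hvu h1
  have h3 : ‖u‖ ≤ ‖v‖ := by
    apply hu v
    unfold Carnot.End
    rw [h2]
  have h4 : inner ℝ v (u - v) = (0 : ℝ) := by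
    rw [L2.inner_def]
    refine integral_eq_zero_of_ae ?_
    filter_upwards [hvu, Lp.coeFn_sub u v] with t ht1 ht2
    rw [ht2, Pi.sub_apply, ht1]
    by_cases h : t ∈ (Ioc a b)ᶜ
    · rw [indicator_of_mem h, sub_self, inner_zero_right]
      rfl
    · rw [indicator_of_notMem h, inner_zero_left]
      rfl
  have h5 : ‖u‖ ^ 2 = ‖v‖ ^ 2 + ‖u - v‖ ^ 2 := by
    have h6 : u = v + (u - v) := by abel
    conv_lhs => rw [h6]
    rw [norm_add_sq_real, h4]
    ring
  have h6 : ‖u - v‖ = 0 := by
    have h7 : ‖u‖ ^ 2 ≤ ‖v‖ ^ 2 := pow_le_pow_left₀ (norm_nonneg _) h3 2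
    have h8 : ‖u - v‖ ^ 2 = 0 := le_antisymm (by linarith) (sq_nonneg _)
    exact pow_eq_zero_iff (two_ne_zero) |>.1 h8
  have h7 : u = v := by
    rw [norm_eq_zero, sub_eq_zero] at h6
    exact h6
  have h8 := ae_restrict_of_ae_restrict_of_subset (Ioc_subset_Ioc ha hb) hvu
  rw [← h7] at h8
  filter_upwards [h8, ae_restrict_mem measurableSet_Ioc] with t ht1 ht2
  rw [ht1, indicator_of_notMem (by simpa using ht2)]

end

end Pool.Agent.CutLoci.H30
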