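import Pool.Agent.Lib.MP_0e3b4a_gt.Iface

/-! # Module PROD: product rule for primitives (by Fubini) -/

set_option autoImplicit false

namespace Pool.Agent.CutLoci.H30

open MeasureTheory Set Filter Topology Pool.Agent.CutLoci

section

variable {E F G : Type} [NormedAddCommGroup E] [NormedSpace ℝ E] [CompleteSpace E]
  [NormedAddCommGroup F] [NormedSpace ℝ F] [CompleteSpace F]
  [NormedAddCommGroup G] [NormedSpace ℝ G] [CompleteSpace G]

omit [CompleteSpace E] [CompleteSpace F] [CompleteSpace G] in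
theorem integrable_bilin (B : E →L[ℝ] F →L[ℝ] G) (x : ℝ → E) (y : ℝ → F) {μ ν : Measure ℝ}
    [SFinite μ] [SFinite ν] (hx : Integrable x μ) (hy : Integrable y ν) :
    Integrable (fun q : ℝ × ℝ => B (x q.1) (y q.2)) (μ.prod ν) := by
  have h1 : Integrable (fun q : ℝ × ℝ => ‖x q.1‖ * ‖y q.2‖) (μ.prod ν) :=
    hx.norm.mul_prod hy.norm
  refine Integrable.mono' (h1.const_mul ‖B‖) ?_ ?_
  · exact B.aestronglyMeasurable_comp₂ hx.aestronglyMeasurable.comp_fst
      hy.aestronglyMeasurable.comp_snd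
  · refine Eventually.of_forall fun q => ?_
    rw [← mul_assoc]
    exact B.le_opNorm₂ _ _

theorem core (B : E →L[ℝ] F →L[ℝ] G) (x : ℝ → E) (y : ℝ → F) {t : ℝ} (ht : 0 ≤ t)
    (hx : IntegrableOn x (Ioc 0 t)) (hy : IntegrableOn y (Ioc 0 t)) :
    Integrable (fun s => B (x s) (∫ p in (0 : ℝ)..s, y p)) (volume.restrict (Ioc 0 t)) ∧
    Integrable (fun s => B (∫ p in (0 : ℝ)..s, x p) (y s)) (volume.restrict (Ioc 0 t)) ∧
    B (∫ s in (0 : ℝ)..t, x s) (∫ s in (0 : ℝ)..t, y s) =
      (∫ s in (0 : ℝ)..t, B (x s) (∫ p in (0 : ℝ)..s, y p)) +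
        ∫ s in (0 : ℝ)..t, B (∫ p in (0 : ℝ)..s, x p) (y s) := by
  set μ : Measure ℝ := volume.restrict (Ioc 0 t) with hμ
  set f : ℝ × ℝ → G := fun q => B (x q.1) (y q.2) with hf
  have hF : Integrable f (μ.prod μ) := integrable_bilin B x y hx hy
  set S : Set (ℝ × ℝ) := {q | q.2 ≤ q.1} with hS
  have hSm : MeasurableSet S := measurableSet_le measurable_snd measurable_fst
  have hF1 : Integrable (S.indicator f) (μ.prod μ) := hF.indicator hSm
  have hF2 : Integrable (Sᶜ.indicator f) (μ.prod μ) := hF.indicator hSm.compl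
  -- the inner integrals
  have hin1 : ∀ s ∈ Ioc 0 t, ∫ p, S.indicator f (s, p) ∂μ = B (x s) (∫ p in (0 : ℝ)..s, y p) := by
    intro s hs
    have e1 : (fun p => S.indicator f (s, p)) = (Iic s).indicator fun p => B (x s) (y p) := by
      funext p
      by_cases hp : p ≤ s
      · rw [indicator_of_mem (show (s, p) ∈ S from hp), indicator_of_mem (show p ∈ Iic s from hp)]
      · rw [indicator_of_notMem (show (s, p) ∉ S from hp),
          indicator_of_notMem (show p ∉ Iic s from hp)]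
    rw [e1, integral_indicator measurableSet_Iic, hμ, Measure.restrict_restrict measurableSet_Iic]
    have e2 : Iic s ∩ Ioc 0 t = Ioc 0 s := by
      ext p
      simp only [mem_inter_iff, mem_Iic, mem_Ioc]
      exact ⟨fun h => ⟨h.2.1, h.1⟩, fun h => ⟨h.2, h.1, h.2.trans hs.2⟩⟩
    rw [e2, intervalIntegral.integral_of_le hs.1.le]
    exact (B (x s)).integral_comp_comm (hy.mono_set (Ioc_subset_Ioc_right hs.2))
  have hin2 : ∀ p ∈ Ioc 0 t, ∫ s, Sᶜ.indicator f (s, p) ∂μ = B (∫ s in (0 : ℝ)..p, x s) (y p) := by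
    intro p hp
    have e1 : (fun s => Sᶜ.indicator f (s, p)) = (Iio p).indicator fun s => B (x s) (y p) := by
      funext s
      by_cases hs : s < p
      · rw [indicator_of_mem (show (s, p) ∈ Sᶜ from not_le.2 hs),
          indicator_of_mem (show s ∈ Iio p from hs)]
      · rw [indicator_of_notMem (show (s, p) ∉ Sᶜ from fun h => h (not_lt.1 hs)),
          indicator_of_notMem (show s ∉ Iio p from hs)]
    rw [e1, integral_indicator measurableSet_Iio, hμ, Measure.restrict_restrict measurableSet_Iio]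
    have e2 : Iio p ∩ Ioc 0 t = Ioo 0 p := by
      ext s
      simp only [mem_inter_iff, mem_Iio, mem_Ioc, mem_Ioo]
      exact ⟨fun h => ⟨h.2.1, h.1⟩, fun h => ⟨h.2, h.1, h.2.le.trans hp.2⟩⟩
    rw [e2, intervalIntegral.integral_of_le hp.1.le, ← integral_Ioc_eq_integral_Ioo]
    exact (B.flip (y p)).integral_comp_comm (hx.mono_set (Ioc_subset_Ioc_right hp.2))
  have hae : ∀ {P : ℝ → Prop}, (∀ s ∈ Ioc 0 t, P s) → ∀ᵐ s ∂μ, P s := by
    intro P hP
    rw [hμ, ae_restrict_iff' measurableSet_Ioc]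
    exact Eventually.of_forall hP
  have hi1 : Integrable (fun s => B (x s) (∫ p in (0 : ℝ)..s, y p)) μ :=
    hF1.integral_prod_left.congr (hae hin1)
  have hi2 : Integrable (fun s => B (∫ p in (0 : ℝ)..s, x p) (y s)) μ :=
    hF2.integral_prod_right.congr (hae hin2)
  refine ⟨hi1, hi2, ?_⟩
  have h1 : ∫ q, f q ∂(μ.prod μ) = B (∫ s, x s ∂μ) (∫ s, y s ∂μ) := by
    rw [integral_prod f hF]
    have e1 : ∀ s, ∫ p, f (s, p) ∂μ = (B.flip (∫ p, y p ∂μ)) (x s) := fun s =>
      (B (x s)).integral_comp_comm hy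
    simp only [e1]
    exact (B.flip (∫ p, y p ∂μ)).integral_comp_comm hx
  have h2 : ∫ q, S.indicator f q ∂(μ.prod μ) = ∫ s, B (x s) (∫ p in (0 : ℝ)..s, y p) ∂μ := by
    rw [integral_prod _ hF1]
    exact integral_congr_ae (hae hin1)
  have h3 : ∫ q, Sᶜ.indicator f q ∂(μ.prod μ) = ∫ s, B (∫ p in (0 : ℝ)..s, x p) (y s) ∂μ := by
    rw [integral_prod_symm _ hF2]
    exact integral_congr_ae (hae hin2)
  have h4 : ∫ q, f q ∂(μ.prod μ) = ∫ q, S.indicator f q ∂(μ.prod μ) +
      ∫ q, Sᶜ.indicator f q ∂(μ.prod μ) := by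
    rw [← integral_add hF1 hF2]
    refine integral_congr_ae (Eventually.of_forall fun q => ?_)
    change f q = S.indicator f q + Sᶜ.indicator f q
    rw [← Pi.add_apply, indicator_self_add_compl]
  rw [intervalIntegral.integral_of_le ht, intervalIntegral.integral_of_le ht,
    intervalIntegral.integral_of_le ht, intervalIntegral.integral_of_le ht]
  change B (∫ s, x s ∂μ) (∫ s, y s ∂μ) = _
  rw [← h1, h4, h2, h3]

end

/-- module PROD -/
theorem prod : ProdStatement := by
  intro E F G _ _ _ _ _ _ _ _ _ B x y x0 y0 hx hy t ht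
  have hx' : IntegrableOn x (Ioc 0 t) := hx.mono_set (Ioc_subset_Ioc_right ht.2)
  have hy' : IntegrableOn y (Ioc 0 t) := hy.mono_set (Ioc_subset_Ioc_right ht.2)
  obtain ⟨hi1, hi2, hc⟩ := core B x y ht.1 hx' hy'
  have ii : ∀ {H : Type} [NormedAddCommGroup H] {h : ℝ → H},
      Integrable h (volume.restrict (Ioc 0 t)) → IntervalIntegrable h volume 0 t := by
    intro H _ h hh
    rw [intervalIntegrable_iff_integrableOn_Ioc_of_le ht.1]
    exact hh
  have e1 : ∫ s in (0 : ℝ)..t, B (x s) y0 = B (∫ s in (0 : ℝ)..t, x s) y0 := by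
    have := (B.flip y0).intervalIntegral_comp_comm (ii hx')
    exact this
  have e2 : ∫ s in (0 : ℝ)..t, B x0 (y s) = B x0 (∫ s in (0 : ℝ)..t, y s) :=
    (B x0).intervalIntegral_comp_comm (ii hy')
  have j1 : IntervalIntegrable (fun s => B (x s) y0) volume 0 t :=
    ii ((B.flip y0).integrable_comp hx')
  have j2 : IntervalIntegrable (fun s => B x0 (y s)) volume 0 t :=
    ii ((B x0).integrable_comp hy')
  have e3 : (∫ s in (0 : ℝ)..t, (B (x s) (y0 + ∫ p in (0 : ℝ)..s, y p) +
      B (x0 + ∫ p in (0 : ℝ)..s, x p) (y s))) =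
      ∫ s in (0 : ℝ)..t, ((B (x s) y0 + B (x s) (∫ p in (0 : ℝ)..s, y p)) +
        (B x0 (y s) + B (∫ p in (0 : ℝ)..s, x p) (y s))) := by
    congr 1
    funext s
    simp only [map_add, ContinuousLinearMap.add_apply]
  rw [e3, intervalIntegral.integral_add (j1.add (ii hi1)) (j2.add (ii hi2)),
    intervalIntegral.integral_add j1 (ii hi1), intervalIntegral.integral_add j2 (ii hi2), e1, e2]
  simp only [map_add, ContinuousLinearMap.add_apply]
  rw [hc]
  abel

end Pool.Agent.CutLoci.H30
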