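import Pool.Agent.Lib.MP_0e3b4a_gt.Iface2

/-! # TRIV: in rank two the covector also annihilates the third layer -/

set_option autoImplicit false
set_option linter.all false

namespace Pool.Agent.CutLoci.H30

open MeasureTheory Set Filter Topology

section

variable {g : Type} [NormedAddCommGroup g] [NormedSpace ℝ g] [FiniteDimensional ℝ g]

theorem br_anti {r : ℕ} (C : Carnot g r) (x y : g) : C.br x y = - C.br y x := by
  have h := C.br_self (x + y)
  rw [map_add, map_add, ContinuousLinearMap.add_apply, ContinuousLinearMap.add_apply, C.br_self,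
    C.br_self, zero_add, add_zero] at h
  rw [add_comm] at h
  exact eq_neg_of_add_eq_zero_left h

theorem plane_eq (a : EE 2) :
    a = a 0 • EuclideanSpace.single 0 1 + a 1 • EuclideanSpace.single 1 1 := by
  ext i
  fin_cases i <;> simp

theorem br_plane (C : Carnot g 2) (a b : EE 2) :
    C.br (C.X a) (C.X b) = (a 0 * b 1 - a 1 * b 0) •
      C.br (C.X (EuclideanSpace.single 0 1)) (C.X (EuclideanSpace.single 1 1)) := by
  conv_lhs => rw [plane_eq a, plane_eq b]
  simp only [map_add, map_smul, ContinuousLinearMap.add_apply, ContinuousLinearMap.smul_apply,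
    C.br_self, smul_zero, zero_add, add_zero]
  rw [br_anti C (C.X (EuclideanSpace.single 1 1)) (C.X (EuclideanSpace.single 0 1))]
  module

theorem exists_partner (C : Carnot g 2) (p a b : EE 2) (hp : p ≠ 0) :
    ∃ d : EE 2, C.br (C.X a) (C.X b) = C.br (C.X p) (C.X d) := by
  have hn : p 0 ^ 2 + p 1 ^ 2 ≠ 0 := by
    intro h
    apply hp
    have h0 : p 0 = 0 := by nlinarith [sq_nonneg (p 0), sq_nonneg (p 1)]
    have h1 : p 1 = 0 := by nlinarith [sq_nonneg (p 0), sq_nonneg (p 1)]
    rw [plane_eq p, h0, h1, zero_smul, zero_smul, add_zero]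
  refine ⟨((a 0 * b 1 - a 1 * b 0) / (p 0 ^ 2 + p 1 ^ 2)) •
    ((- p 1) • EuclideanSpace.single 0 1 + p 0 • EuclideanSpace.single 1 1), ?_⟩
  rw [br_plane C a b, br_plane C p]
  congr 1
  simp
  field_simp

/-- TRIV. -/
theorem triv (struc : StrucStatement g 2) : TrivStatement g := by
  intro C u l hl hu
  have hui : IntegrableOn (u : ℝ → EE 2) (Ioc 0 1) := (Lp.memLp u).integrable (by norm_num)
  obtain ⟨-, hA, -⟩ := struc C u hui
  intro t ht a b c
  have hcont : ContinuousOn
      (fun t => l (C.Ad u t (C.br (C.br (C.X a) (C.X b)) (C.X c)))) (Icc 0 1) :=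
    l.continuous.comp_continuousOn (hA.clm_apply continuousOn_const)
  have hae : (fun t => l (C.Ad u t (C.br (C.br (C.X a) (C.X b)) (C.X c))))
      =ᵐ[volume.restrict (Icc (0 : ℝ) 1)] fun _ => (0 : ℝ) := by
    rw [← Measure.restrict_congr_set (Ioc_ae_eq_Icc (μ := (volume : Measure ℝ)))]
    filter_upwards [hl.2.2, hu] with t ht hut
    obtain ⟨d, hd⟩ := exists_partner C (u t) a b hut
    rw [hd]
    exact ht d c
  exact Measure.eqOn_Icc_of_ae_eq volume zero_ne_one hae hcont continuousOn_const ht

end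

end Pool.Agent.CutLoci.H30
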