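import Pool.Agent.Lib.MP_0e3b4a_gt.Iface

/-! # Module GRON: Gronwall with an integrable coefficient -/

set_option autoImplicit false

namespace Pool.Agent.CutLoci.H30

open MeasureTheory Set Filter Topology Pool.Agent.CutLoci

/-- module GRON -/
theorem gron : GronStatement := by
  intro φ κ hφ hκ hφ0 hκ0 hle
  have hφκ : IntegrableOn (fun s => φ s * κ s) (Ioc 0 1) := by
    have h1 : IntegrableOn κ (Icc 0 1) := by
      rw [integrableOn_Icc_iff_integrableOn_Ioc]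
      exact hκ
    exact (h1.continuousOn_mul hφ isCompact_Icc).mono_set Ioc_subset_Icc_self
  have ii : ∀ {h : ℝ → ℝ} {a b : ℝ}, IntegrableOn h (Ioc 0 1) → 0 ≤ a → a ≤ b → b ≤ 1 →
      IntervalIntegrable h volume a b := by
    intro h a b hh ha hab hb
    rw [intervalIntegrable_iff_integrableOn_Ioc_of_le hab]
    exact hh.mono_set (Ioc_subset_Ioc ha hb)
  set S : Set ℝ := {t | t ∈ Icc (0 : ℝ) 1 ∧ ∀ s ∈ Icc 0 t, φ s = 0} with hS
  have h0S : (0 : ℝ) ∈ S := by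
    refine ⟨⟨le_rfl, zero_le_one⟩, fun s hs => ?_⟩
    have hs0 : s = 0 := le_antisymm hs.2 hs.1
    subst hs0
    have h1 := hle 0 ⟨le_rfl, zero_le_one⟩
    rw [intervalIntegral.integral_same] at h1
    exact le_antisymm h1 (hφ0 0 ⟨le_rfl, zero_le_one⟩)
  have hSb : BddAbove S := ⟨1, fun t ht => ht.1.2⟩
  set c := sSup S with hc
  have hc0 : 0 ≤ c := le_csSup hSb h0S
  have hc1 : c ≤ 1 := csSup_le ⟨0, h0S⟩ fun t ht => ht.1.2
  have hlt : ∀ s, 0 ≤ s → s < c → φ s = 0 := by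
    intro s hs hsc
    obtain ⟨t, ht, hst⟩ := exists_lt_of_lt_csSup ⟨0, h0S⟩ hsc
    exact ht.2 s ⟨hs, hst.le⟩
  -- the integral over `[0, c]` vanishes
  have hint0 : ∫ s in (0 : ℝ)..c, φ s * κ s = 0 := by
    have h1 : ∫ s in (0 : ℝ)..c, φ s * κ s = ∫ s in (0 : ℝ)..c, (0 : ℝ) := by
      rw [intervalIntegral.integral_of_le hc0, intervalIntegral.integral_of_le hc0,
        integral_Ioc_eq_integral_Ioo, integral_Ioc_eq_integral_Ioo]
      refine setIntegral_congr_fun measurableSet_Ioo fun s hs => ?_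
      rw [hlt s hs.1.le hs.2, zero_mul]
    rw [h1]; simp
  have hcS : c ∈ S := by
    refine ⟨⟨hc0, hc1⟩, fun s hs => ?_⟩
    rcases lt_or_eq_of_le hs.2 with h | h
    · exact hlt s hs.1 h
    · subst h
      have h1 := hle c ⟨hc0, hc1⟩
      rw [hint0] at h1
      exact le_antisymm h1 (hφ0 c ⟨hc0, hc1⟩)
  by_cases hc1' : c = 1
  · intro t ht
    exact hcS.2 t (by rw [hc1']; exact ht)
  exfalso
  have hclt : c < 1 := lt_of_le_of_ne hc1 hc1'
  -- a short interval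
  have hκI : IntegrableOn κ (Icc 0 1) := by
    rw [integrableOn_Icc_iff_integrableOn_Ioc]
    exact hκ
  have hcont : ContinuousOn (fun t => ∫ s in c..t, κ s) (Icc c 1) := by
    have h1 := intervalIntegral.continuousOn_primitive_interval (μ := volume) (a := c) (b := 1)
      (f := κ) (hκI.mono_set (by rw [uIcc_of_le hc1]; exact Icc_subset_Icc_left hc0))
    rwa [uIcc_of_le hc1] at h1
  obtain ⟨d, hd1, hd2, hd3⟩ : ∃ d, c < d ∧ d ≤ 1 ∧ ∫ s in c..d, κ s < 1 / 2 := by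
    have h1 : ContinuousWithinAt (fun t => ∫ s in c..t, κ s) (Icc c 1) c :=
      hcont c ⟨le_rfl, hc1⟩
    have h2 : (fun t => ∫ s in c..t, κ s) c < 1 / 2 := by
      simp
    have h3 : ∀ᶠ t in 𝓝[Icc c 1] c, (∫ s in c..t, κ s) < 1 / 2 := h1.eventually_lt_const h2
    have h4 : 𝓝[>] c ≤ 𝓝[Icc c 1] c := by
      have : 𝓝[Ioc c 1] c = 𝓝[>] c := nhdsWithin_Ioc_eq_nhdsGT hclt
      rw [← this]
      exact nhdsWithin_mono c Ioc_subset_Icc_self
    have h5 : ∀ᶠ t in 𝓝[>] c, (∫ s in c..t, κ s) < 1 / 2 := h4 h3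
    have h6 : ∀ᶠ t in 𝓝[>] c, t ∈ Ioc c 1 := by
      rw [← nhdsWithin_Ioc_eq_nhdsGT hclt]
      exact self_mem_nhdsWithin
    obtain ⟨d, hd, hd'⟩ := (h5.and h6).exists
    exact ⟨d, hd'.1, hd'.2, hd⟩
  obtain ⟨t0, ht0, hmax⟩ := isCompact_Icc.exists_isMaxOn (nonempty_Icc.2 hd1.le)
    (hφ.mono (Icc_subset_Icc hc0 hd2))
  have ht01 : t0 ∈ Icc (0 : ℝ) 1 := ⟨hc0.trans ht0.1, ht0.2.trans hd2⟩
  have hM0 : 0 ≤ φ t0 := hφ0 t0 ht01
  have h1 : φ t0 ≤ ∫ s in c..t0, φ s * κ s := by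
    have h2 := hle t0 ht01
    rw [← intervalIntegral.integral_add_adjacent_intervals (b := c)
      (ii hφκ le_rfl hc0 hc1) (ii hφκ hc0 ht0.1 ht01.2), hint0, zero_add] at h2
    exact h2
  have h2 : ∫ s in c..t0, φ s * κ s ≤ ∫ s in c..t0, φ t0 * κ s := by
    refine intervalIntegral.integral_mono_on_of_le_Ioo ht0.1 (ii hφκ hc0 ht0.1 ht01.2)
      ((ii hκ hc0 ht0.1 ht01.2).const_mul _) fun s hs => ?_
    exact mul_le_mul_of_nonneg_right (hmax ⟨hs.1.le, hs.2.le.trans ht0.2⟩)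
      (hκ0 s ⟨lt_of_le_of_lt hc0 hs.1, hs.2.le.trans ht01.2⟩)
  have h3 : ∫ s in c..t0, φ t0 * κ s = φ t0 * ∫ s in c..t0, κ s :=
    intervalIntegral.integral_const_mul _ _
  have h4 : ∫ s in c..t0, κ s ≤ ∫ s in c..d, κ s := by
    rw [← intervalIntegral.integral_add_adjacent_intervals (ii hκ hc0 ht0.1 ht01.2)
      (ii hκ ht01.1 ht0.2 hd2)]
    have : 0 ≤ ∫ s in t0..d, κ s := by
      rw [intervalIntegral.integral_of_le ht0.2]
      refine setIntegral_nonneg measurableSet_Ioc fun s hs => ?_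
      exact hκ0 s ⟨lt_of_le_of_lt ht01.1 hs.1, hs.2.trans hd2⟩
    linarith
  have h5 : φ t0 = 0 := by
    have h6 : φ t0 ≤ φ t0 * (1 / 2) := by
      calc φ t0 ≤ ∫ s in c..t0, φ s * κ s := h1
        _ ≤ φ t0 * ∫ s in c..t0, κ s := by rw [← h3]; exact h2
        _ ≤ φ t0 * (1 / 2) := mul_le_mul_of_nonneg_left (h4.trans hd3.le) hM0
    linarith
  have hdS : d ∈ S := by
    refine ⟨⟨hc0.trans hd1.le, hd2⟩, fun s hs => ?_⟩
    rcases le_or_gt s c with h | h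
    · exact hcS.2 s ⟨hs.1, h⟩
    · have h6 : φ s ≤ φ t0 := hmax ⟨h.le, hs.2⟩
      rw [h5] at h6
      exact le_antisymm h6 (hφ0 s ⟨hs.1, hs.2.trans hd2⟩)
  exact absurd (le_csSup hSb hdS) (not_le.2 hd1)

end Pool.Agent.CutLoci.H30
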